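import Pool.Agent.helper88.RQ2.Spec

/-!
# Row `rq:MS2` (MP_bb0bb6_co, Q2): equality in the linear bound of slope one
-/

open Set Matroid RadonMin

namespace RadonQ2

theorem MS2_proof : MS2_stmt := by
  intro α M _ hs hc hcc
  by_cases h1 : M.E.ncard ≤ 1
  · exact Or.inl h1
  right
  have hEfin : M.E.Finite := M.ground_finite
  have hn : 1 < M.E.ncard := by omega
  obtain ⟨e, he, f, hf, hef⟩ := (one_lt_ncard hEfin).1 hn
  obtain ⟨C, hC, heC, hfC⟩ := hc.exists_common_circuit he hf hef
  have hall : ∀ x ∈ M.E, x ∈ C := by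
    intro x hx
    have h2 := ce_lower hs hc hx 1
    have h3 : (cc M : ℤ) = (M.E.ncard : ℤ) - (rk M M.E : ℤ) := by
      rw [hcc]
      simp [TT]
    have h4 : ((1 + 1).choose 2 : ℤ) = 1 := by norm_num
    rw [h4] at h2
    have h5 : (cc M : ℤ) ≤ ce M x := by
      push_cast at h2
      linarith
    have h6 : cc M ≤ ce M x := by exact_mod_cast h5
    have hsub : {C : Set α | M.IsCircuit C ∧ x ∈ C} ⊆ {C : Set α | M.IsCircuit C} := fun D hD => hD.1
    have hfin : {C : Set α | M.IsCircuit C}.Finite := hEfin.finite_subsets.subset (fun D hD => hD.subset_ground)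
    have h7 : {C : Set α | M.IsCircuit C ∧ x ∈ C} = {C : Set α | M.IsCircuit C} :=
      Set.eq_of_subset_of_ncard_le hsub h6 hfin
    have h8 : C ∈ {C : Set α | M.IsCircuit C ∧ x ∈ C} := by
      rw [h7]
      exact hC
    exact h8.2
  have h9 : C = M.E := Subset.antisymm hC.subset_ground hall
  rw [← h9]
  exact hC

end RadonQ2
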